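import Pool.Agent.Lead.DM3

set_option autoImplicit false

namespace Pool.Agent.Results.MP_0a1f67_ag.Q1

open Matrix Filter Topology Pool.Agent.Lead.DM
open scoped ContDiff Classical

/-- M contains the image of a neighbourhood of 0 in ℝ^d under a C^1 immersion. -/
def HasCell {n : ℕ} (M : Set (Fin n → Fin n → ℝ)) (d : ℕ) : Prop :=
  ∃ φ : (Fin d → ℝ) → (Fin n → Fin n → ℝ), ContDiffAt ℝ 1 φ 0 ∧
    Function.Injective (fderiv ℝ φ 0) ∧ ∀ᶠ u in 𝓝 0, φ u ∈ M

theorem result (n : ℕ) (G H : SimpleGraph (Fin n))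
    (hd : IsGreatest {d | HasCell (corr G H) d}
      (Nat.card {e : Fin n × Fin n // e.1 < e.2 ∧ G.Adj e.1 e.2 ∧ H.Adj e.1 e.2})) :
    IsSubmanifold (corr G H) := by
  obtain ⟨φ, hφ, hi, hm⟩ := hd.1
  have h0 : φ 0 ∈ corr G H := hm.self_of_nhds
  have hst : HasStrictFDerivAt φ (fderiv ℝ φ 0) 0 := hφ.hasStrictFDerivAt (by simp)
  let P : V n →L[ℝ] V n := ContinuousLinearMap.pi fun i => ContinuousLinearMap.pi fun j =>
    if EP G H i j then (ContinuousLinearMap.proj j).comp
      (ContinuousLinearMap.proj i : V n →L[ℝ] (Fin n → ℝ)) else 0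
  have hP : ∀ x i j, P x i j = if EP G H i j then x i j else 0 := by
    intro x i j
    simp only [P, ContinuousLinearMap.pi_apply]
    split_ifs <;> rfl
  have hyP : ∀ x, yy G H (P x) = yy G H x := fun x =>
    yy_congr G H fun i j h => by rw [hP, if_pos h]
  have hsP : ∀ x, sec G H (P x) = sec G H x := fun x => by unfold sec; rw [hyP]
  have hU0 : P (φ 0) ∈ UU G H := by
    obtain ⟨T, hT, h⟩ := (sec_eq G H (corr_good G H h0)).1
    exact ⟨T, hT, by rw [hyP]; exact h⟩
  have hs := (sec_an G H hU0).2.differentiableAt.hasFDerivAt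
  have c := hs.comp 0 (P.hasFDerivAt.comp 0 hst.hasFDerivAt)
  have ee : φ =ᶠ[𝓝 0] (sec G H ∘ (P ∘ φ)) := hm.mono fun u hu => by
    show φ u = sec G H (P (φ u))
    rw [hsP, (sec_eq G H (corr_good G H hu)).2]
  have hD := (c.congr_of_eventuallyEq ee).unique hst.hasFDerivAt
  have inj : Function.Injective ((prj G H).comp (fderiv ℝ φ 0)) := by
    rw [injective_iff_map_eq_zero]
    intro v hv
    have a : P (fderiv ℝ φ 0 v) = 0 := by
      funext i j
      rw [hP]
      split_ifs with h
      · exact congrFun hv ⟨(i, j), h⟩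
      · rfl
    have b := congrArg (fun L => L v) hD
    simp only [ContinuousLinearMap.comp_apply, a, map_zero] at b
    exact (injective_iff_map_eq_zero _).1 hi v b.symm
  have hF := ((prj G H).hasStrictFDerivAt.comp 0 hst).map_nhds_eq_of_surj (by
    rw [LinearMap.range_eq_top]
    refine (LinearMap.injective_iff_surjective_of_finrank_eq_finrank ?_).1 inj
    rw [Module.finrank_fintype_fun_eq_card, Module.finrank_fintype_fun_eq_card, Fintype.card_fin,
      ← Nat.card_eq_fintype_card]
    rfl)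
  have hnear : ∀ᶠ b in 𝓝 (prj G H (φ 0)), ∃ q ∈ corr G H, prj G H q = b := by
    have i1 : (fun x => prj G H (φ x)) '' {u | φ u ∈ corr G H} ∈ 𝓝 (prj G H (φ 0)) :=
      hF ▸ image_mem_map hm
    filter_upwards [i1] with b ⟨u, hu, e⟩
    exact ⟨φ u, hu, e⟩
  have hc := core G H h0 hnear
  intro p hp
  let e := (Fintype.equivFin {x : Fin n × Fin n // ¬ EP G H x.1 x.2}).symm
  let f : V n → (Fin (Fintype.card {x : Fin n × Fin n // ¬ EP G H x.1 x.2}) → ℝ) :=
    fun q l => q (e l).1.1 (e l).1.2 - sec G H q (e l).1.1 (e l).1.2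
  have fa : ∀ q ∈ UU G H, AnalyticAt ℝ f q := fun q hq => analyticAt_pi_iff.2 fun l =>
    analyticAt_pi_iff.1 (analyticAt_pi_iff.1
      ((analyticAt_id (𝕜 := ℝ) (z := q)).sub (sec_an G H hq).2) (e l).1.1) (e l).1.2
  have hpU := (sec_eq G H (corr_good G H hp)).1
  refine ⟨_, f, UU G H, isOpen_iff_mem_nhds.2 fun x hx => (sec_an G H hx).1, hpU,
    fun q hq => (fa q hq).contDiffAt.contDiffWithinAt, fun a => ?_, fun q hq => ⟨fun h => ?_, fun h => ?_⟩⟩
  · let v : V n := fun i j => if h : EP G H i j then 0 else a (e.symm ⟨(i, j), h⟩)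
    refine ⟨v, ?_⟩
    have l : HasDerivAt (fun t : ℝ => p + t • v) v 0 := by
      simpa using ((hasDerivAt_id (0 : ℝ)).smul_const v).const_add p
    have hD' : HasFDerivAt f (fderiv ℝ f p) (p + (0 : ℝ) • v) := by
      simpa using (fa p hpU).differentiableAt.hasFDerivAt
    have c := hD'.comp_hasDerivAt (0 : ℝ) l
    have z : (f ∘ fun t : ℝ => p + t • v) = fun t : ℝ => f p + t • a := by
      funext t l
      have y : yy G H (p + t • v) = yy G H p := yy_congr G H fun i j h => by simp [v, h]
      have s : sec G H (p + t • v) = sec G H p := by unfold sec; rw [y]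
      have w : v (e l).1.1 (e l).1.2 = a l := by
        simp only [v, dif_neg (e l).2]
        exact congrArg a (e.symm_apply_apply l)
      simp only [Function.comp, f, s, Pi.add_apply, Pi.smul_apply, smul_eq_mul, w]
      ring
    rw [z] at c
    have l2 : HasDerivAt (fun t : ℝ => f p + t • a) a 0 := by
      simpa using ((hasDerivAt_id (0 : ℝ)).smul_const a).const_add (f p)
    exact c.unique l2
  · funext l
    simp only [f, (sec_eq G H (corr_good G H h)).2, sub_self, Pi.zero_apply]
  · have : q = sec G H q := by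
      funext i j
      by_cases hij : EP G H i j
      · rw [(sec_good G H hq).2.1 i j (Or.inr hij.2.1)]
        unfold yy
        rw [if_neg hij.1.ne, if_pos hij.2, min_eq_left hij.1.le, max_eq_right hij.1.le]
      · have := congrFun h (e.symm ⟨(i, j), hij⟩)
        simp only [f, Equiv.apply_symm_apply, Pi.zero_apply] at this
        linarith
    rw [this]; exact hc q hq

end Pool.Agent.Results.MP_0a1f67_ag.Q1
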