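import Pool.Agent.Lead.DM3

set_option autoImplicit false

namespace Pool.Agent.Results.MP_0a1f67_ag.Q2

open Matrix Filter Topology Pool.Agent.Lead.DM
open scoped ContDiff Classical

theorem ev_an {n : ℕ} (G H : SimpleGraph (Fin n)) (p : MvPolynomial (Fin n × Fin n) ℝ) {x : V n}
    (hx : x ∈ UU G H) :
    AnalyticAt ℝ (fun z => MvPolynomial.aeval (fun e : Fin n × Fin n => sec G H z e.1 e.2) p) x := by
  induction p using MvPolynomial.induction_on with
  | C a => simpa using analyticAt_const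
  | add p q hp hq => simp only [map_add]; exact hp.add hq
  | mul_X p e hp =>
    simp only [map_mul, MvPolynomial.aeval_X]
    exact hp.mul (analyticAt_pi_iff.1 (analyticAt_pi_iff.1 (sec_an G H hx).2 e.1) e.2)

theorem result (n : ℕ) (G H : SimpleGraph (Fin n)) (hM : IsSubmanifold (corr G H)) :
    (MvPolynomial.vanishingIdeal ℝ
      ((fun (S : Fin n → Fin n → ℝ) (e : Fin n × Fin n) => S e.1 e.2) '' corr G H)).IsPrime := by
  have h1 := one_corr G H
  obtain ⟨k, f, W, hW, hpW, hf, hs, hz⟩ := hM _ h1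
  set p : V n := (1 : Mat n) with hp
  let EV : EE G H → V n := fun e => Es e.1.1 e.1.2
  have hfa : ContDiffAt ℝ ∞ f p := hf.contDiffAt (hW.mem_nhds hpW)
  have hst : HasStrictFDerivAt f (fderiv ℝ f p) p := hfa.hasStrictFDerivAt (by simp)
  have hE : ∀ e : EE G H, fderiv ℝ f p (EV e) = 0 := by
    intro e
    set v : V n := EV e with hv
    have l : HasDerivAt (fun t : ℝ => p + t • v) v 0 := by
      simpa using ((hasDerivAt_id (0 : ℝ)).smul_const v).const_add p
    have hD' : HasFDerivAt f (fderiv ℝ f p) (p + (0 : ℝ) • v) := by simpa using hst.hasFDerivAt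
    have c := hD'.comp_hasDerivAt (0 : ℝ) l
    have t : Tendsto (fun t : ℝ => p + t • v) (𝓝 0) (𝓝 p) := by simpa using l.continuousAt.tendsto
    have z : (f ∘ fun t : ℝ => p + t • v) =ᶠ[𝓝 0] fun _ => 0 := by
      filter_upwards [line_corr G H e.2, t.eventually (hW.mem_nhds hpW)] with t a b
      exact (hz _ b).1 a
    exact (c.congr_of_eventuallyEq z.symm).unique (hasDerivAt_const _ _)
  have hP : ∀ e e' : EE G H, Es e.1.1 e.1.2 e'.1.1 e'.1.2 = if e = e' then 1 else 0 := by
    rintro ⟨⟨a, b⟩, h⟩ ⟨⟨c, d⟩, h'⟩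
    refine if_congr ?_ rfl rfl
    have l1 : a < b := h.1
    have l2 : c < d := h'.1
    simp only [Subtype.mk.injEq, Prod.mk.injEq]
    constructor
    · rintro (⟨rfl, rfl⟩ | ⟨rfl, rfl⟩)
      · exact ⟨rfl, rfl⟩
      · exact absurd l1 (not_lt.2 l2.le)
    · rintro ⟨rfl, rfl⟩; exact Or.inl ⟨rfl, rfl⟩
  have hF := (hst.prodMk (prj G H).hasStrictFDerivAt).map_nhds_eq_of_surj (by
    rw [LinearMap.range_eq_top]
    rintro ⟨a, b⟩
    obtain ⟨v0, hv0⟩ := hs a
    refine ⟨v0 + ∑ e : EE G H, (b e - prj G H v0 e) • EV e, ?_⟩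
    refine Prod.ext ?_ ?_
    · show fderiv ℝ f p _ = a
      rw [map_add, map_sum, hv0]
      simp [hE]
    · show prj G H _ = b
      funext e'
      rw [map_add, map_sum]
      simp only [map_smul, Pi.add_apply, Finset.sum_apply, Pi.smul_apply, smul_eq_mul]
      have : ∀ e : EE G H, prj G H (EV e) e' = if e = e' then 1 else 0 :=
        fun e => hP e e'
      simp [this])
  have hnear : ∀ᶠ b in 𝓝 (prj G H p), ∃ q ∈ corr G H, prj G H q = b := by
    have i1 : (fun x => (f x, prj G H x)) '' W ∈ 𝓝 (f p, prj G H p) :=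
      hF ▸ image_mem_map (hW.mem_nhds hpW)
    have f0 : f p = 0 := (hz p hpW).1 h1
    have c : Continuous fun b : EE G H → ℝ => ((0 : Fin k → ℝ), b) := by fun_prop
    rw [f0] at i1
    filter_upwards [c.continuousAt.eventually i1] with b ⟨q, hq, e⟩
    exact ⟨q, (hz q hq).2 (congrArg Prod.fst e), congrArg Prod.snd e⟩
  have hc := core G H h1 hnear
  have key : ∀ g : MvPolynomial (Fin n × Fin n) ℝ, g ∈ MvPolynomial.vanishingIdeal ℝ
      ((fun (S : Fin n → Fin n → ℝ) (e : Fin n × Fin n) => S e.1 e.2) '' corr G H) ↔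
      ∀ x ∈ UU G H, MvPolynomial.aeval (fun e : Fin n × Fin n => sec G H x e.1 e.2) g = 0 := by
    intro g
    rw [MvPolynomial.mem_vanishingIdeal_iff]
    constructor
    · intro h x hx; exact h _ ⟨_, hc x hx, rfl⟩
    · rintro h _ ⟨S, hS, rfl⟩
      have := sec_eq G H (corr_good G H hS)
      have a := h S this.1
      rwa [this.2] at a
  refine ⟨fun h => ?_, fun {a b} hab => ?_⟩
  · have : (1 : MvPolynomial (Fin n × Fin n) ℝ) ∈ MvPolynomial.vanishingIdeal ℝ
        ((fun (S : Fin n → Fin n → ℝ) (e : Fin n × Fin n) => S e.1 e.2) '' corr G H) := by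
      rw [h]; trivial
    have := (key 1).1 this p (sec_eq G H (corr_good G H h1)).1
    simp at this
  · rw [key, key, or_iff_not_imp_left]
    rw [key] at hab
    intro ha
    push Not at ha
    obtain ⟨x0, hx0, ha⟩ := ha
    have an : AnalyticOnNhd ℝ (fun z => MvPolynomial.aeval
        (fun e : Fin n × Fin n => sec G H z e.1 e.2) b) (UU G H) := fun z hz => ev_an G H b hz
    refine an.eqOn_zero_of_preconnected_of_eventuallyEq_zero (UU_conv G H).isPreconnected hx0 ?_
    filter_upwards [(ev_an G H a hx0).continuousAt.eventually_ne ha, (sec_an G H hx0).1] with z h1 h2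
    have := hab z h2
    rw [map_mul] at this
    exact (mul_eq_zero.1 this).resolve_left h1

end Pool.Agent.Results.MP_0a1f67_ag.Q2
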